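import Mathlib
import Pool.Agent.R528.RM.BHOut

set_option autoImplicit false

/-!
# The quantitative Hypothesis H in random models of the primes, with its local factors

The integers are decided one after the other; no independence is assumed.  Two statements.

* `result`, first part.  Let `ρ : ℕ → [0, 1]` be an arbitrary profile and suppose that almost surely
  the conditional probability of choosing `n + 1`, given the decisions up to `n`, is
  `(1 + o(1)) ρ(n + 1)`.  Then for every finite family of eventually increasing sequences `F i`, any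
  two of which are eventually strictly ordered, almost surely the number of `n < x` with all
  `F i n` chosen is asymptotic to `∑_{n < x} ∏ ρ (F i n)`, as soon as this sum diverges.

* `result`, second part.  Fix a finite set `Q` of primes; multiples of the primes of `Q` are never
  chosen and the other integers `n + 1` are chosen with conditional probability
  `(1 + o(1)) ∏_{p ∈ Q} (1 - 1/p)⁻¹ / log n`.  Then almost surely, for ALL finite families `P` of
  distinct nonconstant integer polynomials with positive leading coefficients simultaneously, the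
  number of `n < x` with all `f(n)` chosen is
  `(C_P(Q) + o(1)) x / (∏ deg f · (log x)^k)`, where
  `C_P(Q) = ∏_{p ∈ Q} (1 - ω_P(p)/p) / (1 - 1/p)^k` is the part of the Bateman and Horn constant that
  belongs to the primes of `Q`.
-/

open MeasureTheory Filter Polynomial
open scoped Topology

namespace Pool.Agent.Results.MP_51e72e_nt.SievedRandomModels

/-- the conditional probability that `n + 1` is chosen, given the information up to `n` -/
noncomputable def density {Ω : Type} {mΩ : MeasurableSpace Ω} (μ : Measure Ω) (ℱ : Filtration ℕ mΩ)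
    (A : ℕ → Set Ω) (n : ℕ) : Ω → ℝ := μ[(A (n + 1)).indicator (fun _ => (1 : ℝ)) | ℱ n]

/-- the number of `n < x` such that every value `f(n)`, `f ∈ P`, is an element of `S` -/
noncomputable def polyCount (S : Set ℕ) (P : Finset ℤ[X]) (x : ℕ) : ℕ :=
  {n : ℕ | n < x ∧ ∀ f ∈ P, ∃ a ∈ S, (a : ℤ) = f.eval (n : ℤ)}.ncard

/-- `ω_P(p)`: the number of residues `r` modulo `p` with `∏ f(r)` divisible by `p` -/
noncomputable def omegaF (P : Finset ℤ[X]) (p : ℕ) : ℕ :=
  {r : ℕ | r < p ∧ (p : ℤ) ∣ ∏ f ∈ P, f.eval (r : ℤ)}.ncard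

end Pool.Agent.Results.MP_51e72e_nt.SievedRandomModels

open Pool.Agent.Results.MP_51e72e_nt.SievedRandomModels

theorem Pool.Agent.Results.MP_51e72e_nt.SievedRandomModels.result
    {Ω : Type} [mΩ : MeasurableSpace Ω] (μ : Measure Ω) [IsProbabilityMeasure μ]
    (ℱ : Filtration ℕ mΩ) (A : ℕ → Set Ω) (hA : ∀ n, MeasurableSet[ℱ n] (A n)) :
    (∀ ρ : ℕ → ℝ, (∀ n, 0 ≤ ρ n ∧ ρ n ≤ 1) →
      (∀ᵐ ω ∂μ, ∀ ε : ℝ, 0 < ε → ∀ᶠ n : ℕ in atTop, |density μ ℱ A n ω - ρ (n + 1)| ≤ ε * ρ (n + 1)) →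
      ∀ (ι : Type) (s : Finset ι) (F : ι → ℕ → ℕ),
      (∀ i ∈ s, ∀ᶠ n in atTop, F i n < F i (n + 1)) →
      (∀ i ∈ s, ∀ j ∈ s, i ≠ j → (∀ᶠ n in atTop, F i n < F j n) ∨ (∀ᶠ n in atTop, F j n < F i n)) →
      Tendsto (fun x => ∑ n ∈ Finset.range x, ∏ i ∈ s, ρ (F i n)) atTop atTop →
      ∀ᵐ ω ∂μ, Tendsto (fun x => ({n : ℕ | n < x ∧ ∀ i ∈ s, ω ∈ A (F i n)}.ncard : ℝ) /
        ∑ n ∈ Finset.range x, ∏ i ∈ s, ρ (F i n)) atTop (𝓝 1)) ∧
    (∀ Q : Finset ℕ, (∀ p ∈ Q, p.Prime) → (∀ n, (∃ p ∈ Q, p ∣ n) → A n = ∅) →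
      (∀ᵐ ω ∂μ, Tendsto (fun n : ℕ => density μ ℱ A n ω * Real.log n)
        (atTop ⊓ 𝓟 {n : ℕ | ∀ p ∈ Q, ¬ p ∣ n + 1}) (𝓝 (∏ p ∈ Q, (1 - 1 / (p : ℝ))⁻¹))) →
      ∀ᵐ ω ∂μ, ∀ P : Finset ℤ[X], (∀ f ∈ P, 0 < f.natDegree ∧ 0 < f.leadingCoeff) →
        Tendsto (fun x : ℕ => (polyCount {a | ω ∈ A a} P x : ℝ) * Real.log x ^ P.card / x) atTop
          (𝓝 ((∏ p ∈ Q, (1 - (omegaF P p : ℝ) / p) / (1 - 1 / (p : ℝ)) ^ P.card) *
            ∏ f ∈ P, ((f.natDegree : ℝ))⁻¹))) :=
  ⟨fun ρ hρ hd _ s F hmono hord hU => Pool.Agent.R528.RM.general_final hA ρ hρ hd s F hmono hord hU,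
    fun Q hQ hcop hd => Pool.Agent.R528.RM.bh_final hA Q hQ hcop hd⟩
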